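import Pool.Agent.H92.RR.Targets
import Pool.Agent.H48.MT2.SHF

/-!
# Integer shifts for monomials (row RSHM of board rr, MP_34b97f_an)
-/

set_option autoImplicit false

open MeasureTheory ProbabilityTheory Filter Topology Finset

namespace Pool.Agent.H67.RR

open Pool.Agent.H89.MT Pool.Agent.H92.RR

theorem shm_prod (J : Finset ℤ) (a : ℤ → ℕ) (x : X) : |∏ j ∈ J, (x j : ℝ) ^ a j| ≤ 1 := by
  rw [Finset.abs_prod]
  refine Finset.prod_le_one (fun _ _ => abs_nonneg _) fun j _ => ?_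
  rw [abs_pow]
  exact pow_le_one₀ (abs_nonneg _) (Pool.Agent.H48.MT2.shf_abs (x j))

theorem shm_corr (u : ℕ → I1) (J : Finset ℤ) (a : ℤ → ℕ) (t : ℕ) (ht : ∀ j ∈ J, j.natAbs ≤ t)
    (m : ℕ) (hm : 1 ≤ m) :
    ∏ j ∈ J, (pt u (m + t) j : ℝ) ^ a j =
      mono u (J.image fun j : ℤ => (j + t).toNat) (fun h => a ((h : ℤ) - t)) m := by
  unfold mono
  rw [Finset.prod_image]
  · apply Finset.prod_congr rfl
    intro j hj
    have h1 := ht j hj
    have h2 : 0 < ((m + t : ℕ) : ℤ) + j := by omega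
    have h3 : (((m + t : ℕ) : ℤ) + j).toNat = m + (j + t).toNat := by omega
    have h4 : (((j + t).toNat : ℕ) : ℤ) - t = j := by omega
    unfold pt
    simp only
    rw [if_pos h2, h3, h4]
  · intro a ha b hb hab
    have h1 := ht a ha
    have h2 := ht b hb
    simp only at hab
    omega

theorem pf_SHM : T_SHM := by
  intro u N hN hu J a hJ
  obtain ⟨t, ht⟩ : ∃ t : ℕ, ∀ j ∈ J, j.natAbs ≤ t :=
    ⟨J.sup Int.natAbs, fun j hj => Finset.le_sup (f := Int.natAbs) hj⟩
  have h0 := hu (J.image fun j : ℤ => (j + t).toNat) (fun h => a ((h : ℤ) - t)) (by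
    obtain ⟨j, hj, hodd⟩ := hJ
    refine ⟨(j + t).toNat, Finset.mem_image_of_mem _ hj, ?_⟩
    have h1 := ht j hj
    have h4 : (((j + t).toNat : ℕ) : ℤ) - t = j := by omega
    rw [h4]
    exact hodd)
  have hdiff : Tendsto (fun k => lavg (N k) (fun n => ∏ j ∈ J, (pt u n j : ℝ) ^ a j) -
      lavg (N k) (mono u (J.image fun j : ℤ => (j + t).toNat) (fun h => a ((h : ℤ) - t))))
      atTop (𝓝 0) := by
    have hlog : Tendsto (fun k : ℕ => (3 * t : ℝ) / Real.log (N k)) atTop (𝓝 0) :=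
      Tendsto.const_div_atTop ((Real.tendsto_log_atTop.comp tendsto_natCast_atTop_atTop).comp hN) _
    refine squeeze_zero_norm ?_ hlog
    intro k
    have hc : ∑ n ∈ Icc 1 (N k), mono u (J.image fun j : ℤ => (j + t).toNat)
        (fun h => a ((h : ℤ) - t)) n / n =
        ∑ n ∈ Icc 1 (N k), (∏ j ∈ J, (pt u (n + t) j : ℝ) ^ a j) / n := by
      apply Finset.sum_congr rfl
      intro n hn
      rw [shm_corr u J a t ht n (Finset.mem_Icc.mp hn).1]
    unfold lavg
    rw [hc, ← sub_div, Real.norm_eq_abs, abs_div, abs_of_nonneg (Real.log_natCast_nonneg (N k))]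
    apply div_le_div_of_nonneg_right _ (Real.log_natCast_nonneg (N k))
    exact Pool.Agent.H48.MT2.shf_diff (fun n => ∏ j ∈ J, (pt u n j : ℝ) ^ a j)
      (fun n => shm_prod J a _) t (N k)
  have := hdiff.add h0
  simpa using this

end Pool.Agent.H67.RR
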