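import Pool.Agent.H92.RR.Main

/-!
# The averages of the conditioned monomials (rows RZB, RKEY of board rr, MP_34b97f_an)
-/

set_option autoImplicit false

open MeasureTheory ProbabilityTheory Filter Topology Finset

universe u

namespace Pool.Agent.H67.RR

open Pool.Agent.H89.MT Pool.Agent.H92.RR

theorem phi_abs_le (u : ℕ → I1) (H : Finset ℕ) (a : ℕ → ℕ) (p n : ℕ) : |phi u H a p n| ≤ 1 := by
  unfold phi
  rw [Finset.abs_prod]
  refine Finset.prod_le_one (fun _ _ => abs_nonneg _) fun h _ => ?_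
  rw [abs_pow]
  exact pow_le_one₀ (abs_nonneg _) (abs_I1 _)

theorem int_phi_le {Ω : Type u} [MeasurableSpace Ω] (P : Measure Ω) [IsProbabilityMeasure P]
    (u : Ω → ℕ → I1) (H : Finset ℕ) (a : ℕ → ℕ) (p n : ℕ) :
    |∫ ω', phi (u ω') H a p n ∂P| ≤ 1 := by
  have h := norm_integral_le_of_norm_le_const (μ := P) (f := fun ω' => phi (u ω') H a p n)
    (C := 1) (Eventually.of_forall fun ω' => by
      rw [Real.norm_eq_abs]
      exact phi_abs_le _ _ _ _ _)
  simpa using h

theorem cond_abs_le {Ω : Type u} [MeasurableSpace Ω] (P : Measure Ω) [IsProbabilityMeasure P]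
    (u : Ω → ℕ → I1) (H : Finset ℕ) (a : ℕ → ℕ) (y M n : ℕ) (ω : Ω) :
    |cond P u H a y M n ω| ≤ 1 := by
  unfold Pool.Agent.H92.RR.cond
  rw [abs_mul, Finset.abs_prod, Finset.abs_prod]
  exact mul_le_one₀ (Finset.prod_le_one (fun _ _ => abs_nonneg _) fun p _ => phi_abs_le _ _ _ _ _)
    (Finset.prod_nonneg fun _ _ => abs_nonneg _)
    (Finset.prod_le_one (fun _ _ => abs_nonneg _) fun p _ => int_phi_le P u H a p n)

/-- the contribution of a large prime which divides `n + h₀` exactly once -/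
theorem phi_single {v : ℕ → I1} (hv : IsMult v) (H : Finset ℕ) (a : ℕ → ℕ) {h₀ : ℕ} (hh : h₀ ∈ H)
    (p n : ℕ) (hp : p.Prime) (hA : H.sup id < p) (hd : p ∣ n + h₀) (hd2 : ¬ p ^ 2 ∣ n + h₀)
    (hn : 0 < n) : phi v H a p n = (v p : ℝ) ^ a h₀ := by
  unfold phi
  rw [Finset.prod_eq_single h₀]
  · have h1 : (n + h₀).factorization p = 1 := by
      have h2 : 0 < (n + h₀).factorization p := hp.factorization_pos_of_dvd (by omega) hd
      have h3 : ¬ 2 ≤ (n + h₀).factorization p := by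
        intro h4
        exact hd2 ((hp.pow_dvd_iff_le_factorization (by omega)).2 h4)
      omega
    rw [h1, pow_one]
  · intro h hH hne
    have h1 : (n + h).factorization p = 0 := by
      refine Nat.factorization_eq_zero_of_not_dvd fun h2 => ?_
      have e1 : h ≤ H.sup id := Finset.le_sup (f := id) hH
      have e2 : h₀ ≤ H.sup id := Finset.le_sup (f := id) hh
      rcases lt_or_gt_of_ne hne with h3 | h3
      · have h4 := Nat.dvd_sub hd h2
        have h5 : n + h₀ - (n + h) = h₀ - h := by omega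
        rw [h5] at h4
        have := Nat.le_of_dvd (by omega) h4
        omega
      · have h4 := Nat.dvd_sub h2 hd
        have h5 : n + h - (n + h₀) = h - h₀ := by omega
        rw [h5] at h4
        have := Nat.le_of_dvd (by omega) h4
        omega
    rw [h1, pow_zero, hv.1, one_pow]
  · intro h
    exact absurd hh h

theorem wt_nonneg {Ω : Type u} [MeasurableSpace Ω] (P : Measure Ω) [IsProbabilityMeasure P]
    (u : Ω → ℕ → I1) (p : ℕ) : 0 ≤ wt P u p ∧ wt P u p ≤ 1 := by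
  have h := norm_integral_le_of_norm_le_const (μ := P) (f := fun ω' => (u ω' p : ℝ))
    (C := 1) (Eventually.of_forall fun ω' => by
      rw [Real.norm_eq_abs]
      exact abs_I1 _)
  have h2 : |∫ ω', (u ω' p : ℝ) ∂P| ≤ 1 := by simpa using h
  unfold wt
  exact ⟨by linarith, by linarith [abs_nonneg (∫ ω', (u ω' p : ℝ) ∂P)]⟩

theorem SS_split (w : ℕ → ℝ) (h0 : ∀ p, 0 ≤ w p) (h1 : ∀ p, w p ≤ 1) (y A N : ℕ) :
    SS w N ≤ 4 * SS (fun p => if max y A < p then w p / 4 else 0) N + SS w y + A := by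
  have hterm : ∀ p : ℕ, 0 ≤ w p / p := fun p => div_nonneg (h0 p) (Nat.cast_nonneg _)
  have hA : ∑ p ∈ pr A, w p / (p : ℝ) ≤ A := by
    have h2 : ∑ p ∈ pr A, w p / (p : ℝ) ≤ ∑ _p ∈ pr A, (1 : ℝ) := by
      refine Finset.sum_le_sum fun p hp => ?_
      unfold pr at hp
      rw [Finset.mem_filter, Finset.mem_Icc] at hp
      have h3 : (1 : ℝ) ≤ p := by exact_mod_cast hp.1.1
      rw [div_le_one (by linarith)]
      exact (h1 p).trans h3
    refine h2.trans ?_
    rw [Finset.sum_const, nsmul_eq_mul, mul_one]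
    have h4 : (pr A).card ≤ A := by
      unfold pr
      refine (Finset.card_filter_le _ _).trans ?_
      simp
    exact_mod_cast h4
  have e1 : 4 * SS (fun p => if max y A < p then w p / 4 else 0) N =
      ∑ p ∈ (pr N).filter (max y A < ·), w p / (p : ℝ) := by
    unfold SS
    rw [Finset.mul_sum, Finset.sum_filter]
    refine Finset.sum_congr rfl fun p _ => ?_
    simp only
    split_ifs
    · ring
    · ring
  have e2 : SS w N = ∑ p ∈ (pr N).filter (max y A < ·), w p / (p : ℝ) +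
      ∑ p ∈ (pr N).filter (fun p => ¬ max y A < p), w p / (p : ℝ) := by
    unfold SS
    rw [Finset.sum_filter_add_sum_filter_not]
  have e3 : ∑ p ∈ (pr N).filter (fun p => ¬ max y A < p), w p / (p : ℝ) ≤
      ∑ p ∈ pr y ∪ pr A, w p / (p : ℝ) := by
    refine Finset.sum_le_sum_of_subset_of_nonneg ?_ fun p _ _ => hterm p
    intro p hp
    rw [Finset.mem_filter, not_lt, le_max_iff] at hp
    unfold pr at hp ⊢
    rw [Finset.mem_filter, Finset.mem_Icc] at hp
    rw [Finset.mem_union, Finset.mem_filter, Finset.mem_filter, Finset.mem_Icc, Finset.mem_Icc]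
    rcases hp.2 with h | h
    · exact Or.inl ⟨⟨hp.1.1.1, h⟩, hp.1.2⟩
    · exact Or.inr ⟨⟨hp.1.1.1, h⟩, hp.1.2⟩
  have e4 : ∑ p ∈ pr y ∪ pr A, w p / (p : ℝ) ≤ SS w y + ∑ p ∈ pr A, w p / (p : ℝ) := by
    have h5 := Finset.sum_union_inter (s₁ := pr y) (s₂ := pr A) (f := fun p => w p / (p : ℝ))
    have h6 : 0 ≤ ∑ p ∈ pr y ∩ pr A, w p / (p : ℝ) := Finset.sum_nonneg fun p _ => hterm p
    unfold SS
    linarith
  rw [e1, e2]
  linarith

theorem cond_le (hPHI : T_PHI.{u}) {Ω : Type u} [MeasurableSpace Ω] (P : Measure Ω)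
    [IsProbabilityMeasure P] (u : Ω → ℕ → I1) (hu : RandomReal P u) (H : Finset ℕ) (a : ℕ → ℕ)
    {h₀ : ℕ} (hh : h₀ ∈ H) (hodd : Odd (a h₀)) (y N n : ℕ) (hn : 0 < n) (hnN : n ≤ N) (ω : Ω) :
    |cond P u H a y (N + H.sup id) n ω| ≤ Real.exp (-(2 *
      om (fun p => if max y (H.sup id + 1) < p then wt P u p / 4 else 0) (n + h₀))) := by
  set M := N + H.sup id with hM
  have hsup : h₀ ≤ H.sup id := Finset.le_sup (f := id) hh
  set T : Finset ℕ := ((n + h₀).primeFactors.filter (fun p => ¬ p ^ 2 ∣ n + h₀)).filter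
    (max y (H.sup id + 1) < ·) with hT
  have hmemT : ∀ p ∈ T, p.Prime ∧ p ∣ n + h₀ ∧ ¬ p ^ 2 ∣ n + h₀ ∧ y < p ∧ H.sup id < p := by
    intro p hp
    rw [hT, Finset.mem_filter, Finset.mem_filter, Nat.mem_primeFactors, max_lt_iff] at hp
    exact ⟨hp.1.1.1, hp.1.1.2.1, hp.1.2, hp.2.1, by omega⟩
  have hsub : T ⊆ (pr M).filter (y < ·) := by
    intro p hp
    obtain ⟨h1, h2, h3, h4, h5⟩ := hmemT p hp
    rw [Finset.mem_filter]
    refine ⟨?_, h4⟩
    unfold pr
    rw [Finset.mem_filter, Finset.mem_Icc]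
    have := Nat.le_of_dvd (by omega) h2
    exact ⟨⟨h1.one_lt.le, by omega⟩, h1⟩
  have hb : ∀ p ∈ T, |∫ ω', phi (u ω') H a p n ∂P| ≤ Real.exp (-(wt P u p / 2)) := by
    intro p hp
    obtain ⟨h1, h2, h3, h4, h5⟩ := hmemT p hp
    have h6 : ∀ ω', phi (u ω') H a p n = (u ω' p : ℝ) ^ a h₀ := fun ω' =>
      phi_single (hu.mult ω') H a hh p n h1 h5 h2 h3 hn
    simp_rw [h6]
    exact hPHI Ω P (fun ω' => u ω' p) (hu.meas p) (a h₀) hodd
  have hom : om (fun p => if max y (H.sup id + 1) < p then wt P u p / 4 else 0) (n + h₀) =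
      ∑ p ∈ T, wt P u p / 4 := by
    unfold om
    rw [hT, Finset.sum_filter (s := (n + h₀).primeFactors.filter (fun p => ¬ p ^ 2 ∣ n + h₀))]
  have hexp : Real.exp (-(2 * ∑ p ∈ T, wt P u p / 4)) = ∏ p ∈ T, Real.exp (-(wt P u p / 2)) := by
    rw [← Real.exp_sum, Finset.mul_sum, ← Finset.sum_neg_distrib]
    congr 1
    refine Finset.sum_congr rfl fun p _ => ?_
    ring
  rw [hom, hexp]
  unfold Pool.Agent.H92.RR.cond
  rw [abs_mul, Finset.abs_prod, Finset.abs_prod]
  have h7 : ∏ p ∈ (pr M).filter (· ≤ y), |phi (u ω) H a p n| ≤ 1 :=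
    Finset.prod_le_one (fun _ _ => abs_nonneg _) fun p _ => phi_abs_le _ _ _ _ _
  have h8 : ∏ p ∈ (pr M).filter (y < ·), |∫ ω', phi (u ω') H a p n ∂P| ≤
      ∏ p ∈ T, |∫ ω', phi (u ω') H a p n ∂P| := by
    rw [← Finset.prod_sdiff hsub]
    have h9 : ∏ p ∈ (pr M).filter (y < ·) \ T, |∫ ω', phi (u ω') H a p n ∂P| ≤ 1 :=
      Finset.prod_le_one (fun _ _ => abs_nonneg _) fun p _ => int_phi_le P u H a p n
    exact mul_le_of_le_one_left (Finset.prod_nonneg fun _ _ => abs_nonneg _) h9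
  have h10 : ∏ p ∈ T, |∫ ω', phi (u ω') H a p n ∂P| ≤ ∏ p ∈ T, Real.exp (-(wt P u p / 2)) :=
    Finset.prod_le_prod (fun _ _ => abs_nonneg _) hb
  calc (∏ p ∈ (pr M).filter (· ≤ y), |phi (u ω) H a p n|) *
        ∏ p ∈ (pr M).filter (y < ·), |∫ ω', phi (u ω') H a p n ∂P|
      ≤ 1 * ∏ p ∈ (pr M).filter (y < ·), |∫ ω', phi (u ω') H a p n ∂P| :=
        mul_le_mul_of_nonneg_right h7 (Finset.prod_nonneg fun _ _ => abs_nonneg _)
    _ = ∏ p ∈ (pr M).filter (y < ·), |∫ ω', phi (u ω') H a p n ∂P| := one_mul _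
    _ ≤ _ := h8.trans h10

theorem log_pos' {N : ℕ} (hN : 3 ≤ N) : 1 ≤ Real.log N := by
  have h3 : (3 : ℝ) ≤ N := by exact_mod_cast hN
  rw [Real.le_log_iff_exp_le (by linarith)]
  linarith [Real.exp_one_lt_d9]

theorem pf_ZB (hPHI : T_PHI.{u}) (hOM : T_OM) : T_ZB.{u} := by
  intro Ω _ P _ u hu H a ha
  obtain ⟨h₀, hh, hodd⟩ := ha
  obtain ⟨C, hC, hC2⟩ := hOM h₀
  set A := H.sup id + 1 with hA
  refine ⟨C * Real.exp ((A : ℝ) / 8), 1 / 8, by positivity, by norm_num, fun y N hy hN ω => ?_⟩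
  set w : ℕ → ℝ := fun p => if max y A < p then wt P u p / 4 else 0 with hw
  have hw0 : ∀ p, 0 ≤ w p := by
    intro p
    simp only [hw]
    split_ifs
    · linarith [(wt_nonneg P u p).1]
    · exact le_rfl
  have hw1 : ∀ p, w p ≤ 1 := by
    intro p
    simp only [hw]
    split_ifs
    · linarith [(wt_nonneg P u p).2]
    · exact zero_le_one
  have h1 := hC2 w hw0 hw1 N hN
  have hlog := log_pos' hN
  have h2 : |lavg N (fun n => cond P u H a y (N + H.sup id) n ω)| ≤
      C * Real.exp (-(SS w N / 2)) := by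
    unfold lavg
    rw [abs_div, abs_of_pos (by linarith : 0 < Real.log N), div_le_iff₀ (by linarith)]
    refine (Finset.abs_sum_le_sum_abs _ _).trans ?_
    have h3 : ∑ n ∈ Icc 1 N, |cond P u H a y (N + H.sup id) n ω / n| ≤
        ∑ n ∈ Icc 1 N, Real.exp (-(2 * om w (n + h₀))) / n := by
      refine Finset.sum_le_sum fun n hn => ?_
      rw [Finset.mem_Icc] at hn
      rw [abs_div, abs_of_nonneg (Nat.cast_nonneg n : (0 : ℝ) ≤ n)]
      refine div_le_div_of_nonneg_right ?_ (Nat.cast_nonneg n)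
      exact cond_le hPHI P u hu H a hh hodd y N n (by omega) hn.2 ω
    refine h3.trans (h1.trans (le_of_eq ?_))
    ring
  refine h2.trans ?_
  have h4 := SS_split (wt P u) (fun p => (wt_nonneg P u p).1) (fun p => (wt_nonneg P u p).2) y A N
  rw [mul_assoc, ← Real.exp_add]
  refine mul_le_mul_of_nonneg_left (Real.exp_le_exp.2 ?_) hC.le
  have h5 : SS (fun p => if max y A < p then wt P u p / 4 else 0) N = SS w N := rfl
  rw [h5] at h4
  linarith

theorem harm_le (N : ℕ) : ∑ n ∈ Icc 1 N, 1 / (n : ℝ) ≤ 1 + Real.log N := by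
  have h := harmonic_le_one_add_log N
  rw [harmonic_eq_sum_Icc] at h
  push_cast at h
  simpa [one_div] using h

theorem pf_KEY (hORT : T_ORT.{u}) (hVAR : T_VAR.{u}) (hZB : T_ZB.{u}) : T_KEY.{u} := by
  intro Ω _ P _ u hu H a ha
  obtain ⟨C1, hC1, hV⟩ := hVAR H
  obtain ⟨C2, c, hC2, hc, hZ⟩ := hZB Ω P u hu H a ha
  refine ⟨C1 + C2 + 4, c, by positivity, hc, fun y N hy hN => ?_⟩
  have hlog := log_pos' hN
  set w : Ω → ℕ → ℝ := fun ω n => mono (u ω) H a n - cond P u H a y (N + H.sup id) n ω with hw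
  have hwm : ∀ n, Measurable fun ω => w ω n := by
    intro n
    refine (mono_meas u hu.meas H a n).sub ?_
    unfold Pool.Agent.H92.RR.cond
    refine Measurable.mul_const ?_ _
    refine Finset.measurable_fun_prod _ fun p _ => ?_
    unfold phi
    exact Finset.measurable_fun_prod _ fun h _ =>
      (measurable_subtype_coe.comp (hu.meas _)).pow_const _
  have hwb : ∀ ω n, |w ω n| ≤ 2 := by
    intro ω n
    have h1 := mono_abs_le (u ω) H a n
    have h2 := cond_abs_le P u H a y (N + H.sup id) n ω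
    have h3 := abs_sub (mono (u ω) H a n) (cond P u H a y (N + H.sup id) n ω)
    simp only [hw]
    linarith
  refine ⟨fun ω => lavg N (w ω), ?_, ?_, ?_, ?_⟩
  · unfold lavg
    exact (Finset.measurable_fun_sum _ fun n _ => (hwm n).div_const _).div_const _
  · intro ω
    unfold lavg
    rw [abs_div, abs_of_pos (by linarith : 0 < Real.log N), div_le_iff₀ (by linarith)]
    refine (Finset.abs_sum_le_sum_abs _ _).trans ?_
    have h3 : ∑ n ∈ Icc 1 N, |w ω n / n| ≤ 2 * ∑ n ∈ Icc 1 N, 1 / (n : ℝ) := by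
      rw [Finset.mul_sum]
      refine Finset.sum_le_sum fun n hn => ?_
      rw [abs_div, abs_of_nonneg (Nat.cast_nonneg n : (0 : ℝ) ≤ n), mul_one_div]
      exact div_le_div_of_nonneg_right (hwb ω n) (Nat.cast_nonneg n)
    have h4 := harm_le N
    nlinarith
  · have h1 := hV Ω P w hwm hwb y N hy hN (fun n m hn hnN hm hmN hco =>
      hORT Ω P u hu H a y (N + H.sup id) n m hn hm
        (fun h hH => by
          have : h ≤ H.sup id := Finset.le_sup (f := id) hH
          omega)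
        (fun h hH => by
          have : h ≤ H.sup id := Finset.le_sup (f := id) hH
          omega) hco)
    refine h1.trans ?_
    refine div_le_div_of_nonneg_right ?_ (Nat.cast_nonneg y)
    linarith
  · intro ω
    have h1 : lavg N (mono (u ω) H a) - lavg N (w ω) =
        lavg N (fun n => cond P u H a y (N + H.sup id) n ω) := by
      unfold lavg
      rw [← sub_div, ← Finset.sum_sub_distrib]
      congr 1
      refine Finset.sum_congr rfl fun n _ => ?_
      simp only [hw]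
      ring
    rw [h1]
    refine (hZ y N hy hN ω).trans ?_
    refine mul_le_mul_of_nonneg_right ?_ (Real.exp_pos _).le
    linarith

end Pool.Agent.H67.RR
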